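import Pool.Agent.K6.helper20.CZ.Main

set_option autoImplicit false

open scoped Manifold ContDiff Topology Pointwise
open Set Filter

namespace Pool.Agent.Results.MP_0a0487_an.CentralizerPinching

open Pool.Agent.H721R2 Pool.Agent.H789R2.AN Pool.Agent.TH289.K Pool.Agent.N234.CP
  Pool.Agent.K6.helper20.CZ

/-- the fundamental groups of `M` have polynomial growth -/
def PolynomialGrowth (M : Type*) [TopologicalSpace M] : Prop :=
  ∃ d : ℕ, ∀ (x : M) (G : Set (FundamentalGroup M x)), G.Finite →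
    ∃ C : ℕ, ∀ n : ℕ, (G ^ n).ncard ≤ C * (n + 1) ^ d

/-- **Pinching through the centralizer.**
Let `f` be a `C¹` Anosov diffeomorphism of a closed connected manifold `M`.  (In Brin's theorem `f`
is pinched: a power `f⁻ᵏ` expands the stable leaves by less than `f^q` contracts them, and
`f^(q-k)` expands the unstable leaves by less than `f^(-q)` contracts them.  Here the power `f⁻ᵏ` is
replaced by an arbitrary homeomorphism which commutes with `f`.)

(1) Let `s, u > 0` be such that `f` contracts the stable sets, in the large, at the rate `s` and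
`f⁻¹` contracts the unstable sets at the rate `u` (`CoarseContracts`).  Suppose that for some
neighbourhood `𝒰₀` of the diagonal, every neighbourhood `𝒰` of the diagonal and every `R` there are
`n ≥ R` and a homeomorphism `φ` commuting with `f` such that `φ x, φ y` are joined by
`N ≤ exp (s n) / R` stable `𝒰`-steps if `x, y` are stably `𝒰₀`-close, and `fⁿ φ x, fⁿ φ y` are joined
by `N ≤ exp (u n) / R` unstable `𝒰`-steps if `x, y` are unstably `𝒰₀`-close (`CentralPinching`).
Then `M` is covered by `E ≅ ℝⁿ`, `f` has global product structure, is topologically transitive and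
has dense periodic points.  If moreover, for every `𝒰`, `n` and `φ` can be found for each `R ≥ 1`
with `log R ≤ n ≤ K (1 + log R)` (`LogCentralPinching`), then `π₁(M)` has polynomial growth.

(2) Let `h` be a homeomorphism commuting with `f` and `q ≥ 1` such that `h` expands the stable sets
of `f`, in the large, at a rate `σ < q s` at most and `f^q h` expands the unstable sets of `f` at a
rate `υ < q u` at most (`ExpandsAlong`).  Then all the conclusions of (1) hold.

(3) Let `h` be a `C¹` diffeomorphism commuting with `f` and `q ≥ 1`, and suppose that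
`‖Dfⁿ v‖ ≤ C e^(-s n) ‖v‖` and `‖Dhⁿ v‖ ≤ C e^(σ n) ‖v‖` on `Eˢ`, `‖Df⁻ⁿ v‖ ≤ C e^(-u n) ‖v‖` and
`‖D(f^q h)ⁿ v‖ ≤ C e^(υ n) ‖v‖` on `Eᵘ` (`ContractsAt`), with `s, u > 0`, `σ < q s` and `υ < q u`.
Then all the conclusions of (1) hold. -/
theorem result (E : Type*) [NormedAddCommGroup E] [NormedSpace ℝ E] [FiniteDimensional ℝ E]
    (M : Type*) [TopologicalSpace M] [T2Space M] [CompactSpace M] [ConnectedSpace M]
    [ChartedSpace E M] [IsManifold 𝓘(ℝ, E) ∞ M] (f : Diffeomorph 𝓘(ℝ, E) 𝓘(ℝ, E) M M 1)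
    (Es Eu : ∀ x : M, Submodule ℝ (TangentSpace 𝓘(ℝ, E) x)) (hA : IsAnosov f Es Eu) :
    (∀ s u : ℝ, 0 < s → 0 < u → CoarseContracts f s → CoarseContracts f.symm u →
      CentralPinching f.toHomeomorph s u →
      (∃ p : E → M, IsCoveringMap p ∧ Function.Surjective p) ∧ GPS f.toHomeomorph ∧
      TopTransitive f ∧ Dense (Function.periodicPts f) ∧
      (LogCentralPinching f.toHomeomorph s u → PolynomialGrowth M)) ∧
    (∀ (h : M ≃ₜ M) (q : ℕ) (s u σ υ : ℝ), (∀ x, h (f x) = f (h x)) → 1 ≤ q → 0 < s → 0 < u →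
      CoarseContracts f s → CoarseContracts f.symm u → ExpandsAlong f h σ →
      ExpandsAlong f.symm (fun x => f^[q] (h x)) υ → σ < q * s → υ < q * u →
      (∃ p : E → M, IsCoveringMap p ∧ Function.Surjective p) ∧ GPS f.toHomeomorph ∧
      TopTransitive f ∧ Dense (Function.periodicPts f) ∧ PolynomialGrowth M) ∧
    ∀ (h : Diffeomorph 𝓘(ℝ, E) 𝓘(ℝ, E) M M 1) (q : ℕ) (s u σ υ : ℝ),
      (∀ x, h (f x) = f (h x)) → 1 ≤ q → 0 < s → 0 < u →
      ContractsAt f Es s → ContractsAt f.symm Eu u → ContractsAt h Es (-σ) →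
      ContractsAt (fun x => f^[q] (h x)) Eu (-υ) → σ < q * s → υ < q * u →
      (∃ p : E → M, IsCoveringMap p ∧ Function.Surjective p) ∧ GPS f.toHomeomorph ∧
      TopTransitive f ∧ Dense (Function.periodicPts f) ∧ PolynomialGrowth M := by
  refine ⟨fun s u hs hu h1 h2 hc => ?_,
    fun h q s u σ υ hc hq hs hu h1 h2 h3 h4 hσ hυ => ?_,
    fun h q s u σ υ hc hq hs hu h1 h2 h3 h4 hσ hυ => ?_⟩
  · obtain ⟨t1, t2, t3, t4, t5⟩ := central_pinching f Es Eu hA s u hs hu h1 h2 hc
    exact ⟨t4, t3, t1, t2, t5⟩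
  · have hlog : LogCentralPinching f.toHomeomorph s u :=
      log_of_factors (f := f.toHomeomorph) (h := h) hq hc hσ hυ h3 h4
    obtain ⟨t1, t2, t3, t4, t5⟩ :=
      central_pinching f Es Eu hA s u hs hu h1 h2 hlog.central
    exact ⟨t4, t3, t1, t2, t5 hlog⟩
  · obtain ⟨t1, t2, t3, t4, t5⟩ :=
      factor_pinching f h Es Eu hA q hq hc s u σ υ hs hu h1 h2 h3 h4 hσ hυ
    exact ⟨t4, t3, t1, t2, t5⟩

end Pool.Agent.Results.MP_0a0487_an.CentralizerPinching
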