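import Pool.Agent.K6.H72.FB.A5
import Pool.Agent.K6.H72.FB.A6

/-!
# MP_0a0487_an: Anosov diffeomorphisms fibred over Anosov diffeomorphisms, and universal covers
-/

set_option autoImplicit false

open scoped Manifold ContDiff Topology
open Set Filter

namespace Pool.Agent.Results.MP_0a0487_an.FibreBundlesCovered

open Pool.Agent.H721R2 Pool.Agent.H789R2.AN Pool.Agent.TH289.K Pool.Agent.K6.H72.FB

/-- **Fibred Anosov diffeomorphisms: global product structure and universal covers.**
Let `f`, `g` be `C¹` Anosov diffeomorphisms of closed connected manifolds `M`, `M'` modelled on `E`,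
`E'`, and let `h : M → M'` be a locally trivial fibre bundle (`LocTriv h`; the fibres may have any
dimension) with `h ∘ f = g ∘ h`.

(1) `f` has global product structure (`GPS`: each stable path and each unstable path with the same
initial point span a rectangle) if and only if `g` has global product structure and the fibres have
(`FibreGPS f h`: each stable path and each unstable path of `f` with the same initial point that stay
in one fibre span a rectangle in this fibre).

(2) If `g` has global product structure and the fibres have, then `M` is covered by Euclidean space: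
there is a surjective covering map `E → M`; and `M'` is covered by `E'`.

(3) (Principal bundles.)  Suppose that a compact topological group `G` acts continuously and freely on
`M`, that the fibres of `h` are the orbits of `G`, and that `f (v • x) = A v • f x` for an automorphism
`A` of `G`.  Then the fibres have global product structure; hence `f` has global product structure if
and only if `g` has, and in this case `M` is covered by Euclidean space.  (This can be iterated: in
this way the question for iterated principal bundles, for instance of tori, reduces to the last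
base.) -/
theorem result (E : Type*) [NormedAddCommGroup E] [NormedSpace ℝ E] [FiniteDimensional ℝ E]
    (M : Type*) [TopologicalSpace M] [T2Space M] [CompactSpace M] [ConnectedSpace M]
    [ChartedSpace E M] [IsManifold 𝓘(ℝ, E) ∞ M] (f : Diffeomorph 𝓘(ℝ, E) 𝓘(ℝ, E) M M 1)
    (Es Eu : ∀ x : M, Submodule ℝ (TangentSpace 𝓘(ℝ, E) x)) (hf : IsAnosov f Es Eu)
    (E' : Type*) [NormedAddCommGroup E'] [NormedSpace ℝ E'] [FiniteDimensional ℝ E']
    (M' : Type*) [TopologicalSpace M'] [T2Space M'] [CompactSpace M'] [ConnectedSpace M']
    [ChartedSpace E' M'] [IsManifold 𝓘(ℝ, E') ∞ M'] (g : Diffeomorph 𝓘(ℝ, E') 𝓘(ℝ, E') M' M' 1)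
    (Es' Eu' : ∀ x : M', Submodule ℝ (TangentSpace 𝓘(ℝ, E') x)) (hg : IsAnosov g Es' Eu')
    (h : C(M, M')) (hfg : ∀ x, h (f x) = g (h x)) (hT : LocTriv h) :
    (GPS f.toHomeomorph ↔ GPS g.toHomeomorph ∧ FibreGPS f.toHomeomorph h) ∧
    (GPS g.toHomeomorph → FibreGPS f.toHomeomorph h →
      (∃ π : E → M, IsCoveringMap π ∧ Function.Surjective π) ∧
      ∃ π : E' → M', IsCoveringMap π ∧ Function.Surjective π) ∧
    ∀ (G : Type*) [Group G] [TopologicalSpace G] [IsTopologicalGroup G] [CompactSpace G]
      [MulAction G M] [ContinuousSMul G M] (A : G ≃* G),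
      (∀ (v : G) (x : M), v • x = x → v = 1) →
      (∀ x y : M, h x = h y ↔ ∃ v : G, y = v • x) →
      (∀ (v : G) (x : M), f (v • x) = A v • f x) →
      FibreGPS f.toHomeomorph h ∧ (GPS f.toHomeomorph ↔ GPS g.toHomeomorph) ∧
        (GPS g.toHomeomorph → ∃ π : E → M, IsCoveringMap π ∧ Function.Surjective π) := by
  have key := (man_fib f Es Eu hf g Es' Eu' hg h h.continuous hfg hT).2
  refine ⟨key, fun hG hF => ⟨(man_self f Es Eu hf (key.2 ⟨hG, hF⟩)).2,
    (man_self g Es' Eu' hg hG).2⟩, ?_⟩
  intro G _ _ _ _ _ _ A hfree horb hA
  have hF : FibreGPS f.toHomeomorph h := fibre_of_principal (G := G) f.toHomeomorph h hfree horb A hA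
  exact ⟨hF, ⟨fun hG => (key.1 hG).1, fun hG => key.2 ⟨hG, hF⟩⟩,
    fun hG => (man_self f Es Eu hf (key.2 ⟨hG, hF⟩)).2⟩

end Pool.Agent.Results.MP_0a0487_an.FibreBundlesCovered
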