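import Pool.Agent.K6.H72.PD.B6
import Pool.Agent.K6.H72.PD.NUM
import Pool.Agent.K6.H72.PD.NUM2
import Pool.Agent.K6.H72.PD.BOXB
import Pool.Agent.K6.H72.PD.TOWB
import Pool.Agent.K6.H72.PD.UNI
import Pool.Agent.K6.H72.PD.GRPB
import Pool.Agent.K6.H72.PD.UPC
import Pool.Agent.K6.H72.PD.PTH
import Pool.Agent.K6.H72.PD.RLZ
import Pool.Agent.K6.H72.PD.HLI

/-!
# MP_0a0487_an: Anosov diffeomorphisms with polynomially distorted leaves
-/

set_option autoImplicit false

open scoped Manifold ContDiff Topology
open Set Filter

namespace Pool.Agent.Results.MP_0a0487_an.PolynomialDistortion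

open Pool.Agent.N234.CP Pool.Agent.H721R2 Pool.Agent.H789R2.AN Pool.Agent.TH289.K
  Pool.Agent.K6.H72.PD

/-- **Anosov diffeomorphisms: distortion of the leaves against the rates.**
Let `f` be a `C¹` Anosov diffeomorphism of the closed connected manifold `M` modelled on `E`, and
let `p : Y → M` be a surjective covering map (for instance the universal cover).  Let `0 < s ≤ S`
and `0 < u ≤ U` be such that `f` contracts the stable bundle at the rate `s` at least and `f⁻¹`
expands it at the rate `S` at most, and `f⁻¹` contracts the unstable bundle at the rate `u` at least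
and `f` expands it at the rate `U` at most: either for the norms of the derivatives of the iterates,
up to a constant factor (`ContractsAt`), or for the coarse rates (`CoarseContracts`,
`CoarseExpands`), which only involve chains of small steps in the leaves.

Let `α = (U - u) / s`; or, if the UNSTABLE leaves have in `Y` at most polynomial distortion of
exponent `k ≥ 1` (`PolyDistorted`: end points of a path in a leaf which are joined in `Y` by `N ≥ 1`
small paths are joined in the leaf by at most `C N ^ k` small steps), let
`α = (k U - u) / (s + U)`.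

Let `β = (S - s) / u`; or, if the STABLE leaves have in `Y` at most polynomial distortion of
exponent `k ≥ 1`, let `β = (k S - s) / (u + S)`.

If `α β < 1` then `M` is covered by Euclidean space: there is a surjective covering map `E → M`;
moreover `f` has global product structure, is topologically transitive, and its periodic points are
dense.

(The four cases: no distortion bound is Brin's pinching; both foliations distorted with exponents
`1`, that is quasi-isometric, is Hammerlindl's theorem, the condition holding then for all rates;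
ONE distorted foliation: the condition is `k S (U - u) < s (S + U)` for the stable one, which holds
for instance if `k = 1` and `U - u ≤ s`; both distorted:
`(ku U - u) (ks S - s) < (s + U) (u + S)`.) -/
theorem result (E : Type*) [NormedAddCommGroup E] [NormedSpace ℝ E] [FiniteDimensional ℝ E]
    (M : Type*) [TopologicalSpace M] [T2Space M] [CompactSpace M] [ConnectedSpace M]
    [ChartedSpace E M] [IsManifold 𝓘(ℝ, E) ∞ M] (f : Diffeomorph 𝓘(ℝ, E) 𝓘(ℝ, E) M M 1)
    (Es Eu : ∀ x : M, Submodule ℝ (TangentSpace 𝓘(ℝ, E) x)) (hf : IsAnosov f Es Eu)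
    (Y : Type*) [TopologicalSpace Y] (p : C(Y, M)) (hp : IsCoveringMap p)
    (hsur : Function.Surjective p) (s S u U α β : ℝ) (hs : 0 < s) (hsS : s ≤ S) (hu : 0 < u)
    (huU : u ≤ U)
    (hrates : (ContractsAt f Es s ∧ ContractsAt f.symm Es (-S) ∧ ContractsAt f.symm Eu u ∧
        ContractsAt f Eu (-U)) ∨
      (CoarseContracts f s ∧ CoarseExpands f.toHomeomorph S ∧ CoarseContracts f.symm u ∧
        CoarseExpands f.toHomeomorph.symm U))
    (hα : α = (U - u) / s ∨ ∃ k : ℝ, 1 ≤ k ∧ PolyDistorted f.toHomeomorph.symm p k ∧
      α = (k * U - u) / (s + U))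
    (hβ : β = (S - s) / u ∨ ∃ k : ℝ, 1 ≤ k ∧ PolyDistorted f.toHomeomorph p k ∧
      β = (k * S - s) / (u + S))
    (hαβ : α * β < 1) :
    (∃ q : E → M, IsCoveringMap q ∧ Function.Surjective q) ∧ GPS f.toHomeomorph ∧
      TopTransitive f ∧ Dense (Function.periodicPts f) := by
  rcases hrates with ⟨h1, h2, h3, h4⟩ | ⟨h1, h2, h3, h4⟩
  · exact man_rates_all t_NUM t_NUM2 tow_all box_all t_UNI t_PTH grp_steps t_UPC t_RLZ t_HLI f Es Eu
      hf p hp hsur s S u U α β hs hsS hu huU hα hβ hαβ h1 h3 h2 h4
  · exact man_all t_NUM t_NUM2 tow_all box_all t_UNI t_PTH grp_steps t_UPC t_RLZ t_HLI f Es Eu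
      hf p hp hsur s S u U α β hs hsS hu huU hα hβ hαβ h1 h3 h2 h4

end Pool.Agent.Results.MP_0a0487_an.PolynomialDistortion
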