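import Pool.Agent.K6.H54.AN.Main

/-!
# MP_0a0487_an: product structure at a dense set of points

For an Anosov diffeomorphism `f` of a closed connected manifold and a neighbourhood `𝒲` of the
diagonal let `G(𝒲)` be the set of the points `p` at which every stable path of size `𝒲` and every
unstable path (of whatever length) span a rectangle.  We show that `f` has global product structure
(so that the manifold is covered by Euclidean space) as soon as `G(𝒲)` is dense for one `𝒲`, and
that for nonwandering `f` the set `G(𝒲)` is otherwise nowhere dense and its closure is a null set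
for all ergodic measures of full support.
-/

set_option autoImplicit false

open Filter Topology Set MeasureTheory unitInterval
open scoped Manifold ContDiff

namespace Pool.Agent.Results.MP_0a0487_an.ProductAtDensePoints

open Pool.Agent.H721R2 Pool.Agent.H789R2.AN Pool.Agent.TH289.K Pool.Agent.K6.H54.AN

variable {E : Type*} [NormedAddCommGroup E] [NormedSpace ℝ E] [FiniteDimensional ℝ E]
  {M : Type*} [TopologicalSpace M] [T2Space M] [CompactSpace M] [ConnectedSpace M]
  [ChartedSpace E M] [IsManifold 𝓘(ℝ, E) ∞ M]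

/-- The conclusion: `f` has global product structure and is transitive, and `M` is covered by the
Euclidean space `E`. -/
def Concl (f : Diffeomorph 𝓘(ℝ, E) 𝓘(ℝ, E) M M 1) : Prop :=
  GPS f.toHomeomorph ∧ TopTransitive f ∧ ∃ π : E → M, IsCoveringMap π ∧ Function.Surjective π

/-- The set of the points with product structure up to the stable size `𝒲`. -/
def Good (f : Diffeomorph 𝓘(ℝ, E) 𝓘(ℝ, E) M M 1) (𝒲 : Set (M × M)) : Set M :=
  {p | ProductAt f.toHomeomorph 𝒲 p}

/-- **Product structure at a dense set of points; a zero-one law.**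
Let `f` be a `C¹` Anosov diffeomorphism of a closed connected manifold `M` modelled on `E`.  For a
neighbourhood `𝒲` of the diagonal of `M × M` let `Good f 𝒲` be the set of the points `p` at which
every stable path with `𝒲`-small forward iterates and every unstable path (of whatever length) span
a rectangle; `Good f univ` is the set of the points at which all stable and unstable paths do.
`Concl f`: `f` has global product structure and is transitive and `M` is covered by `E`.

(1) If `Good f 𝒲` is dense for one `𝒲`, then `Concl f`.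
(2) If `fⁿ(p)` is in `Good f 𝒲` for infinitely many `n ≥ 0`, then `p` is in `Good f univ`.
(3) If `p` is in the closure of `Good f 𝒲` and its backward orbit is dense, then `Concl f`; if `p` is
in the closure of `Good f univ` and its orbit under the group of the symmetries (homeomorphisms
conjugating `f` to `f` or `f⁻¹`) is dense, then `Concl f`.
(4) If the closure of `Good f 𝒲` has positive measure for some `f`-ergodic finite Borel measure of
full support, then `Concl f`.
(5) Let all points be nonwandering.  Then `Concl f` holds if the closure of `Good f 𝒲` has an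
interior point, or contains a local stable set; or if the closure of `Good f univ` contains a local
unstable set; or if each periodic point `p` in some nonempty open set has an iterate at which, for
some `𝒲` depending on `p`, the `𝒲`-small stable paths and the homoclinic unstable paths (with
endpoint in the stable leaf) span rectangles. -/
theorem result (f : Diffeomorph 𝓘(ℝ, E) 𝓘(ℝ, E) M M 1)
    (Es Eu : ∀ x : M, Submodule ℝ (TangentSpace 𝓘(ℝ, E) x)) (hA : IsAnosov f Es Eu) :
    -- (1) density at one scale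
    (∀ 𝒲 ∈ 𝓝ˢ (diagonal M), Dense (Good f 𝒲) → Concl f) ∧
    -- (2) recurrence
    (∀ 𝒲 ∈ 𝓝ˢ (diagonal M), ∀ p : M, (∃ᶠ n : ℕ in atTop, f^[n] p ∈ Good f 𝒲) →
      p ∈ Good f univ) ∧
    -- (3) one point with a dense orbit
    (∀ 𝒲 ∈ 𝓝ˢ (diagonal M), ∀ p ∈ closure (Good f 𝒲),
      Dense (range fun n : ℕ => f.symm^[n] p) → Concl f) ∧
    (∀ p ∈ closure (Good f univ), Dense {q | ∃ φ : M ≃ₜ M, IsSymmetry f.toHomeomorph φ ∧ q = φ p} →
      Concl f) ∧
    -- (4) zero-one law
    (∀ 𝒲 ∈ 𝓝ˢ (diagonal M), ∀ [MeasurableSpace M] [BorelSpace M] (μ : Measure M)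
      [IsFiniteMeasure μ] [μ.IsOpenPosMeasure], Ergodic f μ → μ (closure (Good f 𝒲)) ≠ 0 →
      Concl f) ∧
    -- (5) nonwandering diffeomorphisms
    ((∀ U : Set M, IsOpen U → U.Nonempty → ∃ m : ℕ, 1 ≤ m ∧ (f^[m] '' U ∩ U).Nonempty) →
      (∀ 𝒲 ∈ 𝓝ˢ (diagonal M), (interior (closure (Good f 𝒲))).Nonempty → Concl f) ∧
      (∀ 𝒲 ∈ 𝓝ˢ (diagonal M), ∀ 𝒱 ∈ 𝓝ˢ (diagonal M), ∀ x : M,
        {q | ∀ n : ℕ, (f^[n] x, f^[n] q) ∈ 𝒱} ⊆ closure (Good f 𝒲) → Concl f) ∧
      (∀ 𝒱 ∈ 𝓝ˢ (diagonal M), ∀ x : M,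
        {q | ∀ n : ℕ, (f.symm^[n] x, f.symm^[n] q) ∈ 𝒱} ⊆ closure (Good f univ) → Concl f) ∧
      (∀ O : Set M, IsOpen O → O.Nonempty → (∀ p ∈ O, p ∈ Function.periodicPts f →
        ∃ 𝒲 ∈ 𝓝ˢ (diagonal M), ∃ n : ℕ, HomoclinicProductAt f.toHomeomorph 𝒲 (f^[n] p)) →
        Concl f)) := by
  have hcl : ∀ 𝒲 ∈ 𝓝ˢ (diagonal M), closure (Good f 𝒲) = univ → Concl f := fun 𝒲 h𝒲 h =>
    man_dense f Es Eu hA h𝒲 (dense_iff_closure_eq.2 h)
  have hback : ∀ 𝒲 : Set (M × M), ∀ x ∈ closure (Good f 𝒲),
      f.toHomeomorph.symm x ∈ closure (Good f 𝒲) := fun 𝒲 x hx => closure_back hx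
  have hforw : ∀ x ∈ closure (Good f univ), f.toHomeomorph x ∈ closure (Good f univ) :=
    fun x hx => closure_forw hx
  refine ⟨fun 𝒲 h𝒲 h => hcl 𝒲 h𝒲 h.closure_eq, fun 𝒲 h𝒲 p h => full_of_frequently h𝒲 h,
    fun 𝒲 h𝒲 p hp h => hcl 𝒲 h𝒲 ?_, fun p hp h => hcl univ univ_mem ?_,
    fun 𝒲 h𝒲 _ _ μ _ _ he h0 => hcl 𝒲 h𝒲 (univ_of_measure (f := f.toHomeomorph) μ he
      isClosed_closure (hback 𝒲) h0), fun hnw => ?_⟩
  · refine eq_univ_of_univ_subset ?_
    rw [← h.closure_eq]
    refine closure_minimal ?_ isClosed_closure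
    rintro _ ⟨n, rfl⟩
    exact it_back (hback 𝒲) hp n
  · refine eq_univ_of_univ_subset ?_
    rw [← h.closure_eq]
    refine closure_minimal ?_ isClosed_closure
    rintro _ ⟨φ, hφ, rfl⟩
    exact map_mem_closure φ.continuous hp fun a ha => full_of_symmetry hφ ha
  · obtain ⟨hper, hS, hU⟩ := man_nw f Es Eu hA hnw
    have hint : ∀ 𝒲 ∈ 𝓝ˢ (diagonal M), (interior (closure (Good f 𝒲))).Nonempty → Concl f := by
      rintro 𝒲 h𝒲 ⟨x, hx⟩
      refine hcl 𝒲 h𝒲 (hS _ isClosed_closure (hback 𝒲) _ (nbhd_of_open isOpen_interior hx) x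
        fun q hq => interior_subset (hq 0 rfl))
    refine ⟨hint, fun 𝒲 h𝒲 𝒱 h𝒱 x h => hcl 𝒲 h𝒲 (hS _ isClosed_closure (hback 𝒲) 𝒱 h𝒱 x
        fun q hq => h hq), fun 𝒱 h𝒱 x h => hcl univ univ_mem (hU _ isClosed_closure hforw 𝒱 h𝒱 x
        fun q hq => h hq), fun O hO hOn h => hint univ univ_mem ?_⟩
    refine hOn.mono (interior_maximal ?_ hO)
    have hsub : O ∩ Function.periodicPts f ⊆ Good f univ := by
      rintro p ⟨hp, hpp⟩
      obtain ⟨𝒲, h𝒲, n, hn⟩ := h p hp hpp
      obtain ⟨j, hj, hj'⟩ := hpp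
      have hpn : f^[n] p ∈ Function.periodicPts f := ⟨j, hj, hj'.apply_iterate n⟩
      have h1 := man_hom f Es Eu hA hnw hpn hn
      refine full_of_frequently h𝒲 (frequently_atTop.2 fun m => ⟨n + j * m, ?_, ?_⟩)
      · nlinarith [Nat.le_mul_of_pos_left m hj]
      · have e : f.toHomeomorph^[n + j * m] p = f^[n] p := by
          rw [Function.iterate_add_apply]
          exact congrArg (f^[n]) (hj'.mul_const m)
        rw [e]
        exact h1
    exact (hper.open_subset_closure_inter hO).trans (closure_mono hsub)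

end Pool.Agent.Results.MP_0a0487_an.ProductAtDensePoints
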